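import Mathlib

/-!
# Weighted partitions: the recurrence and the generating function
-/

set_option autoImplicit false

namespace Pool.Agent.Q164.SN

open Finset

/-- the weight of a multiset -/
noncomputable def wt (a : ℕ → ℝ) (s : Multiset ℕ) : ℝ := (s.map a).prod

/-- the weighted number of partitions of `n` -/
noncomputable def W (a : ℕ → ℝ) (n : ℕ) : ℝ := ∑ p : Nat.Partition n, wt a p.parts

lemma wt_nonneg {a : ℕ → ℝ} (ha : ∀ k, 0 ≤ a k) (s : Multiset ℕ) : 0 ≤ wt a s := by
  unfold wt
  apply Multiset.prod_nonneg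
  intro x hx
  rw [Multiset.mem_map] at hx
  obtain ⟨k, _, rfl⟩ := hx
  exact ha k

lemma W_nonneg {a : ℕ → ℝ} (ha : ∀ k, 0 ≤ a k) (n : ℕ) : 0 ≤ W a n :=
  Finset.sum_nonneg fun _ _ => wt_nonneg ha _

lemma wt_mono {a b : ℕ → ℝ} (ha : ∀ k, 0 ≤ a k) (hab : ∀ k, a k ≤ b k) (s : Multiset ℕ) :
    wt a s ≤ wt b s := by
  unfold wt
  induction s using Multiset.induction_on with
  | empty => simp
  | cons k s ih =>
    rw [Multiset.map_cons, Multiset.map_cons, Multiset.prod_cons, Multiset.prod_cons]
    exact mul_le_mul (hab k) ih (wt_nonneg ha s) ((ha k).trans (hab k))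

lemma W_mono {a b : ℕ → ℝ} (ha : ∀ k, 0 ≤ a k) (hab : ∀ k, a k ≤ b k) (n : ℕ) : W a n ≤ W b n :=
  Finset.sum_le_sum fun _ _ => wt_mono ha hab _

lemma W_congr {a b : ℕ → ℝ} (n : ℕ) (hab : ∀ k, 0 < k → k ≤ n → a k = b k) : W a n = W b n := by
  refine Finset.sum_congr rfl fun p _ => ?_
  unfold wt
  congr 1
  apply Multiset.map_congr rfl
  intro k hk
  exact hab k (p.parts_pos hk) (Multiset.le_sum_of_mem hk |>.trans_eq p.parts_sum)

lemma W_zero (a : ℕ → ℝ) : W a 0 = 1 := by
  unfold W
  rw [Fintype.sum_unique]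
  have : (default : Nat.Partition 0).parts = 0 := by
    have h := (default : Nat.Partition 0).parts_sum
    rw [Multiset.eq_zero_iff_forall_notMem]
    intro k hk
    have h1 := (default : Nat.Partition 0).parts_pos hk
    have h2 := Multiset.le_sum_of_mem hk
    omega
  rw [this]
  simp [wt]

lemma sum_le_of_le {s t : Multiset ℕ} (h : s ≤ t) : s.sum ≤ t.sum := by
  have : (t - s).sum + s.sum = t.sum := by rw [← Multiset.sum_add, Multiset.sub_add_cancel h]
  omega

/-- Removing `m` copies of `k`. -/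
lemma sum_count (a : ℕ → ℝ) (n k m : ℕ) (hk : 0 < k) :
    (∑ p : Nat.Partition n, if m ≤ p.parts.count k then wt a p.parts else 0) =
      if k * m ≤ n then a k ^ m * W a (n - k * m) else 0 := by
  classical
  rw [← Finset.sum_filter]
  split_ifs with h
  · unfold W
    rw [Finset.mul_sum]
    refine Finset.sum_bij' (i := fun p hp => (⟨p.parts - Multiset.replicate m k, ?_, ?_⟩ :
      Nat.Partition (n - k * m))) (j := fun q _ => (⟨q.parts + Multiset.replicate m k, ?_, ?_⟩ :
      Nat.Partition n)) ?_ ?_ ?_ ?_ ?_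
    · intro i hi
      exact p.parts_pos (Multiset.mem_of_le (Multiset.sub_le_self _ _) hi)
    · have h1 : Multiset.replicate m k ≤ p.parts :=
        Multiset.le_count_iff_replicate_le.1 (Finset.mem_filter.1 hp).2
      have h2 := p.parts_sum
      have h3 : (p.parts - Multiset.replicate m k).sum + (Multiset.replicate m k).sum = p.parts.sum := by
        rw [← Multiset.sum_add, Multiset.sub_add_cancel h1]
      rw [Multiset.sum_replicate, smul_eq_mul, h2] at h3
      rw [mul_comm k m]
      omega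
    · intro i hi
      rw [Multiset.mem_add] at hi
      rcases hi with hi | hi
      · exact q.parts_pos hi
      · rw [Multiset.eq_of_mem_replicate hi]; exact hk
    · rw [Multiset.sum_add, Multiset.sum_replicate, smul_eq_mul, q.parts_sum, mul_comm k m]
      rw [mul_comm k m] at h
      omega
    · intro p hp
      exact Finset.mem_univ _
    · intro q _
      rw [Finset.mem_filter]
      refine ⟨Finset.mem_univ _, ?_⟩
      rw [Multiset.count_add, Multiset.count_replicate_self]
      omega
    · intro p hp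
      have h1 : Multiset.replicate m k ≤ p.parts :=
        Multiset.le_count_iff_replicate_le.1 (Finset.mem_filter.1 hp).2
      ext1
      exact Multiset.sub_add_cancel h1
    · intro q _
      ext1
      exact Multiset.add_sub_cancel_right
    · intro p hp
      have h1 : Multiset.replicate m k ≤ p.parts :=
        Multiset.le_count_iff_replicate_le.1 (Finset.mem_filter.1 hp).2
      unfold wt
      conv_lhs => rw [← Multiset.sub_add_cancel h1]
      rw [Multiset.map_add, Multiset.prod_add, Multiset.map_replicate, Multiset.prod_replicate,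
        mul_comm]
  · apply Finset.sum_eq_zero
    intro p hp
    exfalso
    apply h
    have h1 : Multiset.replicate m k ≤ p.parts :=
      Multiset.le_count_iff_replicate_le.1 (Finset.mem_filter.1 hp).2
    have h2 := sum_le_of_le h1
    rw [Multiset.sum_replicate, smul_eq_mul, p.parts_sum] at h2
    rw [mul_comm]
    exact h2

/-- the coefficients of the recurrence -/
noncomputable def c (a : ℕ → ℝ) (j : ℕ) : ℝ := ∑ k ∈ j.divisors, (k : ℝ) * a k ^ (j / k)

lemma part_count {n : ℕ} (p : Nat.Partition n) :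
    (n : ℝ) = ∑ k ∈ Icc 1 n, ∑ m ∈ Icc 1 n, (if m ≤ p.parts.count k then (k : ℝ) else 0) := by
  classical
  have h1 : p.parts.toFinset ⊆ Icc 1 n := by
    intro k hk
    rw [Multiset.mem_toFinset] at hk
    rw [Finset.mem_Icc]
    exact ⟨p.parts_pos hk, (Multiset.le_sum_of_mem hk).trans_eq p.parts_sum⟩
  have h2 : n = ∑ k ∈ Icc 1 n, p.parts.count k * k := by
    conv_lhs => rw [← p.parts_sum]
    rw [Finset.sum_multiset_count]
    simp only [smul_eq_mul]
    refine Finset.sum_subset h1 fun k _ hk => ?_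
    rw [Multiset.mem_toFinset] at hk
    rw [Multiset.count_eq_zero_of_notMem hk, zero_mul]
  have h3 : ∀ k ∈ Icc 1 n, ∑ m ∈ Icc 1 n, (if m ≤ p.parts.count k then (k : ℝ) else 0) =
      ((p.parts.count k * k : ℕ) : ℝ) := by
    intro k hk
    rw [← Finset.sum_filter, Finset.sum_const, nsmul_eq_mul]
    have h4 : (Icc 1 n).filter (fun m => m ≤ p.parts.count k) = Icc 1 (p.parts.count k) := by
      ext m
      rw [Finset.mem_filter, Finset.mem_Icc, Finset.mem_Icc]
      constructor
      · rintro ⟨⟨h5, _⟩, h6⟩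
        exact ⟨h5, h6⟩
      · rintro ⟨h5, h6⟩
        refine ⟨⟨h5, h6.trans ?_⟩, h6⟩
        have h7 : Multiset.replicate (p.parts.count k) k ≤ p.parts :=
          Multiset.le_count_iff_replicate_le.1 le_rfl
        have h8 := sum_le_of_le h7
        rw [Multiset.sum_replicate, smul_eq_mul, p.parts_sum] at h8
        rw [Finset.mem_Icc] at hk
        calc p.parts.count k ≤ p.parts.count k * k := Nat.le_mul_of_pos_right _ hk.1
          _ ≤ n := h8
    rw [h4, Nat.card_Icc]
    push_cast
    simp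
  rw [Finset.sum_congr rfl h3, ← Nat.cast_sum, ← h2]

/-- **The recurrence.** -/
theorem recurrence (a : ℕ → ℝ) (n : ℕ) :
    (n : ℝ) * W a n = ∑ j ∈ Icc 1 n, c a j * W a (n - j) := by
  classical
  have h1 : (n : ℝ) * W a n = ∑ k ∈ Icc 1 n, ∑ m ∈ Icc 1 n,
      (k : ℝ) * (if k * m ≤ n then a k ^ m * W a (n - k * m) else 0) := by
    calc (n : ℝ) * W a n = ∑ p : Nat.Partition n, (n : ℝ) * wt a p.parts := by
          unfold W; rw [Finset.mul_sum]
      _ = ∑ p : Nat.Partition n, ∑ k ∈ Icc 1 n, ∑ m ∈ Icc 1 n,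
            (k : ℝ) * (if m ≤ p.parts.count k then wt a p.parts else 0) := by
          refine Finset.sum_congr rfl fun p _ => ?_
          conv_lhs => rw [part_count p]
          rw [Finset.sum_mul]
          refine Finset.sum_congr rfl fun k _ => ?_
          rw [Finset.sum_mul]
          refine Finset.sum_congr rfl fun m _ => ?_
          split_ifs <;> simp
      _ = ∑ k ∈ Icc 1 n, ∑ m ∈ Icc 1 n, ∑ p : Nat.Partition n,
            (k : ℝ) * (if m ≤ p.parts.count k then wt a p.parts else 0) := by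
          rw [Finset.sum_comm]
          refine Finset.sum_congr rfl fun k _ => ?_
          rw [Finset.sum_comm]
      _ = _ := by
          refine Finset.sum_congr rfl fun k hk => ?_
          refine Finset.sum_congr rfl fun m _ => ?_
          rw [Finset.mem_Icc] at hk
          rw [← Finset.mul_sum, sum_count a n k m hk.1]
  rw [h1]
  have h2 : ∀ j ∈ Icc 1 n, c a j * W a (n - j) =
      ∑ x ∈ ((Icc 1 n) ×ˢ (Icc 1 n)).filter (fun x => x.1 * x.2 = j),
        (x.1 : ℝ) * a x.1 ^ x.2 * W a (n - x.1 * x.2) := by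
    intro j hj
    rw [Finset.mem_Icc] at hj
    unfold c
    rw [Finset.sum_mul]
    refine Finset.sum_bij' (i := fun k _ => (k, j / k)) (j := fun x _ => x.1) ?_ ?_ ?_ ?_ ?_
    · intro k hk
      rw [Nat.mem_divisors] at hk
      obtain ⟨⟨m, rfl⟩, hne⟩ := hk
      have hk0 : 0 < k := Nat.pos_of_ne_zero (by rintro rfl; simp at hne)
      have hm0 : 0 < m := Nat.pos_of_ne_zero (by rintro rfl; simp at hne)
      rw [Finset.mem_filter, Finset.mem_product, Finset.mem_Icc, Finset.mem_Icc]
      dsimp only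
      rw [Nat.mul_div_cancel_left m hk0]
      refine ⟨⟨⟨hk0, ?_⟩, ⟨hm0, ?_⟩⟩, rfl⟩
      · exact (Nat.le_mul_of_pos_right _ hm0).trans hj.2
      · exact (Nat.le_mul_of_pos_left _ hk0).trans hj.2
    · intro x hx
      rw [Finset.mem_filter] at hx
      rw [Nat.mem_divisors]
      exact ⟨⟨x.2, hx.2.symm⟩, by omega⟩
    · intro k _
      rfl
    · intro x hx
      rw [Finset.mem_filter, Finset.mem_product, Finset.mem_Icc, Finset.mem_Icc] at hx
      ext
      · rfl
      · dsimp only
        rw [← hx.2]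
        exact Nat.mul_div_cancel_left x.2 hx.1.1.1
    · intro k hk
      rw [Nat.mem_divisors] at hk
      obtain ⟨⟨m, rfl⟩, hne⟩ := hk
      have hk0 : 0 < k := Nat.pos_of_ne_zero (by rintro rfl; simp at hne)
      dsimp only
      rw [Nat.mul_div_cancel_left m hk0]
  rw [Finset.sum_congr rfl h2, ← Finset.sum_product']
  have h3 : ∀ x ∈ (Icc 1 n) ×ˢ (Icc 1 n), (x.1 : ℝ) * (if x.1 * x.2 ≤ n then a x.1 ^ x.2 *
      W a (n - x.1 * x.2) else 0) = ∑ j ∈ Icc 1 n, if x.1 * x.2 = j then
        (x.1 : ℝ) * a x.1 ^ x.2 * W a (n - x.1 * x.2) else 0 := by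
    intro x hx
    rw [Finset.mem_product, Finset.mem_Icc, Finset.mem_Icc] at hx
    rw [Finset.sum_ite_eq]
    have hpos : 1 ≤ x.1 * x.2 := Nat.mul_pos hx.1.1 hx.2.1
    by_cases h4 : x.1 * x.2 ≤ n
    · rw [if_pos h4, if_pos (by rw [Finset.mem_Icc]; exact ⟨hpos, h4⟩)]
      ring
    · rw [if_neg h4, if_neg (by rw [Finset.mem_Icc]; exact fun h5 => h4 h5.2), mul_zero]
  rw [Finset.sum_congr rfl h3, Finset.sum_comm]
  refine Finset.sum_congr rfl fun j _ => ?_
  rw [← Finset.sum_filter]

/-! ### Restricted parts -/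

/-- the weights of the parts at most `y` -/
noncomputable def tr (a : ℕ → ℝ) (y : ℕ) : ℕ → ℝ := fun k => if k ≤ y then a k else 0

lemma tr_nonneg {a : ℕ → ℝ} (ha : ∀ k, 0 ≤ a k) (y k : ℕ) : 0 ≤ tr a y k := by
  unfold tr
  split_ifs
  · exact ha k
  · exact le_rfl

lemma tr_le {a : ℕ → ℝ} (ha : ∀ k, 0 ≤ a k) (y k : ℕ) : tr a y k ≤ a k := by
  unfold tr
  split_ifs
  · exact le_rfl
  · exact ha k

lemma W_tr_le {a : ℕ → ℝ} (ha : ∀ k, 0 ≤ a k) (y n : ℕ) : W (tr a y) n ≤ W a n :=
  W_mono (tr_nonneg ha y) (tr_le ha y) n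

lemma W_tr_eq (a : ℕ → ℝ) {y n : ℕ} (h : n ≤ y) : W (tr a y) n = W a n := by
  apply W_congr
  intro k _ hk
  unfold tr
  rw [if_pos (by omega)]

lemma W_tr_zero (a : ℕ → ℝ) (n : ℕ) : W (tr a 0) n = if n = 0 then 1 else 0 := by
  split_ifs with h
  · subst h
    exact W_zero _
  · unfold W
    apply Finset.sum_eq_zero
    intro p _
    unfold wt
    have hne : p.parts ≠ 0 := by
      intro h0
      have := p.parts_sum
      rw [h0, Multiset.sum_zero] at this
      exact h this.symm
    obtain ⟨k, hk⟩ := Multiset.exists_mem_of_ne_zero hne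
    apply Multiset.prod_eq_zero
    rw [Multiset.mem_map]
    refine ⟨k, hk, ?_⟩
    unfold tr
    rw [if_neg (by have := p.parts_pos hk; omega)]

lemma W_tr_succ (a : ℕ → ℝ) (y n : ℕ) : W (tr a (y + 1)) n = W (tr a y) n +
    if y + 1 ≤ n then a (y + 1) * W (tr a (y + 1)) (n - (y + 1)) else 0 := by
  classical
  have h := sum_count (tr a (y + 1)) n (y + 1) 1 (by omega)
  rw [mul_one, pow_one] at h
  have e : tr a (y + 1) (y + 1) = a (y + 1) := by unfold tr; rw [if_pos le_rfl]
  rw [e] at h
  rw [← h]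
  unfold W
  rw [← Finset.sum_add_distrib]
  refine Finset.sum_congr rfl fun p _ => ?_
  by_cases hc : 1 ≤ p.parts.count (y + 1)
  · rw [if_pos hc]
    have : wt (tr a y) p.parts = 0 := by
      unfold wt
      apply Multiset.prod_eq_zero
      rw [Multiset.mem_map]
      refine ⟨y + 1, Multiset.one_le_count_iff_mem.1 hc, ?_⟩
      unfold tr
      rw [if_neg (by omega)]
    rw [this, zero_add]
  · rw [if_neg hc, add_zero]
    unfold wt
    congr 1
    apply Multiset.map_congr rfl
    intro k hk
    have hne : k ≠ y + 1 := by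
      rintro rfl
      exact hc (Multiset.one_le_count_iff_mem.2 hk)
    unfold tr
    by_cases h1 : k ≤ y
    · rw [if_pos h1, if_pos (by omega)]
    · rw [if_neg h1, if_neg (by omega)]

/-- the generating function of the partitions into parts at most `y` -/
theorem hasSum_tr {a : ℕ → ℝ} (ha : ∀ k, 0 ≤ a k) {x : ℝ} (hx : 0 ≤ x) :
    ∀ y : ℕ, (∀ k, 1 ≤ k → k ≤ y → a k * x ^ k < 1) →
      HasSum (fun n => W (tr a y) n * x ^ n) (∏ k ∈ Icc 1 y, (1 - a k * x ^ k)⁻¹) := by
  intro y
  induction y with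
  | zero =>
    intro _
    have h : (fun n => W (tr a 0) n * x ^ n) = fun n => if n = 0 then 1 else 0 := by
      funext n
      rw [W_tr_zero]
      split_ifs with h
      · rw [h]; simp
      · simp
    rw [h]
    simpa using hasSum_ite_eq (0 : ℕ) (1 : ℝ)
  | succ y ih =>
    intro hy
    have ih' := ih fun k h1 h2 => hy k h1 (by omega)
    set S := ∏ k ∈ Icc 1 y, (1 - a k * x ^ k)⁻¹ with hS
    have hlt := hy (y + 1) (by omega) le_rfl
    set t := a (y + 1) * x ^ (y + 1) with ht
    have ht0 : 0 ≤ t := mul_nonneg (ha _) (pow_nonneg hx _)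
    have hnn : ∀ n, 0 ≤ W (tr a (y + 1)) n * x ^ n := fun n =>
      mul_nonneg (W_nonneg (tr_nonneg ha _) n) (pow_nonneg hx n)
    have hnn' : ∀ n, 0 ≤ W (tr a y) n * x ^ n := fun n =>
      mul_nonneg (W_nonneg (tr_nonneg ha _) n) (pow_nonneg hx n)
    have hstep : ∀ n, W (tr a (y + 1)) (n + (y + 1)) * x ^ (n + (y + 1)) =
        W (tr a y) (n + (y + 1)) * x ^ (n + (y + 1)) + t * (W (tr a (y + 1)) n * x ^ n) := by
      intro n
      rw [W_tr_succ, if_pos (by omega), Nat.add_sub_cancel, ht, pow_add]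
      ring
    have hsmall : ∀ n, n < y + 1 → W (tr a (y + 1)) n * x ^ n = W (tr a y) n * x ^ n := by
      intro n hn
      rw [W_tr_succ, if_neg (by omega), add_zero]
    -- partial sums
    have hpart : ∀ N, ∑ n ∈ range (N + (y + 1)), W (tr a (y + 1)) n * x ^ n =
        ∑ n ∈ range (N + (y + 1)), W (tr a y) n * x ^ n +
          t * ∑ n ∈ range N, W (tr a (y + 1)) n * x ^ n := by
      intro N
      induction N with
      | zero =>
        rw [Finset.sum_range_zero, mul_zero, add_zero, zero_add]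
        exact Finset.sum_congr rfl fun n hn => hsmall n (Finset.mem_range.1 hn)
      | succ N ihN =>
        rw [show N + 1 + (y + 1) = N + (y + 1) + 1 by ring, Finset.sum_range_succ, ihN,
          Finset.sum_range_succ _ (N + (y + 1)), Finset.sum_range_succ _ N, hstep]
        ring
    have hSle : ∀ N, ∑ n ∈ range N, W (tr a y) n * x ^ n ≤ S := fun N =>
      sum_le_hasSum _ (fun n _ => hnn' n) ih'
    have hbound : ∀ N, ∑ n ∈ range N, W (tr a (y + 1)) n * x ^ n ≤ S * (1 - t)⁻¹ := by
      intro N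
      have h1 := hpart N
      have h2 : ∑ n ∈ range N, W (tr a (y + 1)) n * x ^ n ≤
          ∑ n ∈ range (N + (y + 1)), W (tr a (y + 1)) n * x ^ n :=
        Finset.sum_le_sum_of_subset_of_nonneg (Finset.range_mono (by omega)) fun n _ _ => hnn n
      have h3 := hSle (N + (y + 1))
      rw [← div_eq_mul_inv, le_div_iff₀ (by linarith)]
      nlinarith
    have hsum : Summable fun n => W (tr a (y + 1)) n * x ^ n :=
      summable_of_sum_range_le hnn hbound
    obtain ⟨T, hT⟩ := hsum
    have hlim : T = S + t * T := by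
      have l1 := (hT.tendsto_sum_nat).comp (Filter.tendsto_add_atTop_nat (y + 1))
      have l2 := (ih'.tendsto_sum_nat).comp (Filter.tendsto_add_atTop_nat (y + 1))
      have l3 := (hT.tendsto_sum_nat).const_mul t
      have l4 := l2.add l3
      refine tendsto_nhds_unique l1 (l4.congr fun N => ?_)
      simp only [Function.comp_apply]
      exact (hpart N).symm
    have hTS : T = S * (1 - t)⁻¹ := by
      rw [← div_eq_mul_inv, eq_div_iff (by linarith)]
      linarith
    rw [← Finset.insert_Icc_right_eq_Icc_add_one (by omega), Finset.prod_insert (by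
      rw [Finset.mem_Icc]; omega), mul_comm, ← hTS]
    exact hT

end Pool.Agent.Q164.SN
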