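import Mathlib
import Pool.Agent.Q164.SN.Rec

/-!
# Weighted partitions: the abstract asymptotics
-/

set_option autoImplicit false

namespace Pool.Agent.Q164.SN

open Finset Filter Topology

/-- the truncated Euler product -/
noncomputable def F (a : ℕ → ℝ) (y : ℕ) : ℝ := ∏ k ∈ Icc 1 y, (1 - a k)⁻¹

/-- the cumulative sums -/
noncomputable def C (a : ℕ → ℝ) (n : ℕ) : ℝ := ∑ m ∈ range n, W a m

section
variable {a : ℕ → ℝ} (h0 : ∀ k, 0 ≤ a k) (h1 : ∀ k, 1 ≤ k → a k ≤ 1 / ((k : ℝ) + 1))

include h0 in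
lemma C_mono : Monotone (C a) := by
  intro m n hmn
  unfold C
  exact Finset.sum_le_sum_of_subset_of_nonneg (Finset.range_mono hmn) fun i _ _ => W_nonneg h0 i

include h1 in
lemma a_le_half (k : ℕ) (hk : 1 ≤ k) : a k ≤ 1 / 2 := by
  refine (h1 k hk).trans ?_
  have : (1 : ℝ) ≤ k := by exact_mod_cast hk
  rw [div_le_div_iff₀ (by linarith) (by norm_num)]
  linarith

include h0 h1 in
lemma C_le (n : ℕ) : C a (n + 1) ≤ F a n := by
  have h := hasSum_tr h0 (x := 1) (by norm_num) n (fun k hk _ => by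
    rw [one_pow, mul_one]; linarith [a_le_half h1 k hk])
  simp only [one_pow, mul_one] at h
  have h2 : C a (n + 1) = ∑ m ∈ range (n + 1), W (tr a n) m := by
    unfold C
    refine Finset.sum_congr rfl fun m hm => ?_
    rw [Finset.mem_range] at hm
    rw [W_tr_eq a (by omega)]
  rw [h2]
  exact sum_le_hasSum _ (fun m _ => W_nonneg (tr_nonneg h0 _) m) h

include h1 in
lemma F_pos (n : ℕ) : 0 < F a n := by
  unfold F
  apply Finset.prod_pos
  intro k hk
  rw [Finset.mem_Icc] at hk
  have := a_le_half h1 k hk.1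
  apply inv_pos.2
  linarith

include h0 h1 in
/-- The lower bound for the cumulative sums (a Rankin-type bound for the tail). -/
lemma le_C {y : ℕ} (hy : 8 ≤ y) (n : ℕ) :
    F a y * (1 - Real.exp 8 * Real.exp (-(n / y : ℝ))) ≤ C a n := by
  have hy0 : (8 : ℝ) ≤ y := by exact_mod_cast hy
  have hy1 : (0 : ℝ) < y := by linarith
  set x : ℝ := Real.exp (1 / y) with hx
  have hx1 : 1 ≤ x := Real.one_le_exp (by positivity)
  have hxk : ∀ k : ℕ, x ^ k = Real.exp (k / y) := by
    intro k
    rw [hx, ← Real.exp_nat_mul]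
    congr 1
    ring
  have hkey : ∀ k : ℕ, 1 ≤ k → k ≤ y → a k * (x ^ k - 1) ≤ 2 / y := by
    intro k hk1 hk2
    have hk1' : (1 : ℝ) ≤ k := by exact_mod_cast hk1
    have hk2' : (k : ℝ) ≤ y := by exact_mod_cast hk2
    have ht0 : (0 : ℝ) ≤ k / y := by positivity
    have ht1 : (k : ℝ) / y ≤ 1 := by rw [div_le_one hy1]; exact hk2'
    have e1 : x ^ k - 1 ≤ 2 * (k / y) := by
      rw [hxk]
      have := Real.abs_exp_sub_one_le (x := (k : ℝ) / y) (by rw [abs_of_nonneg ht0]; exact ht1)
      rw [abs_of_nonneg ht0] at this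
      exact (le_abs_self _).trans this
    have e2 : 0 ≤ x ^ k - 1 := by
      have := one_le_pow₀ hx1 (n := k)
      linarith
    calc a k * (x ^ k - 1) ≤ (1 / ((k : ℝ) + 1)) * (2 * (k / y)) :=
          mul_le_mul (h1 k hk1) e1 e2 (by positivity)
      _ = (k / (k + 1)) * (2 / y) := by ring
      _ ≤ 1 * (2 / y) := by
          apply mul_le_mul_of_nonneg_right _ (by positivity)
          rw [div_le_one (by positivity)]
          linarith
      _ = 2 / y := one_mul _
  have hlt : ∀ k : ℕ, 1 ≤ k → k ≤ y → a k * x ^ k ≤ 3 / 4 := by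
    intro k hk1 hk2
    have e1 := hkey k hk1 hk2
    have e2 := a_le_half h1 k hk1
    have e3 : (2 : ℝ) / y ≤ 1 / 4 := by
      rw [div_le_div_iff₀ hy1 (by norm_num)]
      linarith
    have : a k * x ^ k = a k + a k * (x ^ k - 1) := by ring
    linarith
  -- the generating function at `x` and at `1`
  have hA := hasSum_tr h0 (x := x) (by linarith) y (fun k hk1 hk2 => by
    linarith [hlt k hk1 hk2])
  have hB := hasSum_tr h0 (x := 1) (by norm_num) y (fun k hk _ => by
    rw [one_pow, mul_one]; linarith [a_le_half h1 k hk])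
  simp only [one_pow, mul_one] at hB
  have hratio : ∏ k ∈ Icc 1 y, (1 - a k * x ^ k)⁻¹ ≤ F a y * Real.exp 8 := by
    have e : Real.exp 8 = ∏ k ∈ Icc 1 y, Real.exp (8 / y) := by
      rw [Finset.prod_const, Nat.card_Icc, ← Real.exp_nat_mul]
      congr 1
      rw [Nat.add_sub_cancel]
      field_simp
    rw [e]
    unfold F
    rw [← Finset.prod_mul_distrib]
    apply Finset.prod_le_prod
    · intro k hk
      rw [Finset.mem_Icc] at hk
      have := hlt k hk.1 hk.2
      apply inv_nonneg.2
      linarith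
    · intro k hk
      rw [Finset.mem_Icc] at hk
      have e1 := hlt k hk.1 hk.2
      have e2 := a_le_half h1 k hk.1
      have e3 := hkey k hk.1 hk.2
      have e4 := h0 k
      have e5 : 1 + 8 / y ≤ Real.exp (8 / (y : ℝ)) := by
        have := Real.add_one_le_exp (8 / (y : ℝ))
        linarith
      have e6 : (1 - a k * x ^ k)⁻¹ ≤ (1 - a k)⁻¹ * (1 + 8 / y) := by
        rw [inv_eq_one_div, inv_eq_one_div, one_div_mul_eq_div, div_le_div_iff₀ (by linarith)
          (by linarith)]
        have e7 : (1 + 8 / (y : ℝ)) * (1 - a k * x ^ k) - 1 * (1 - a k) =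
            (8 / y) * (1 - a k * x ^ k) - a k * (x ^ k - 1) := by ring
        have e8 : (8 / (y : ℝ)) * (1 / 4) ≤ (8 / y) * (1 - a k * x ^ k) := by
          apply mul_le_mul_of_nonneg_left _ (by positivity)
          linarith
        have e9 : (8 / (y : ℝ)) * (1 / 4) = 2 / y := by ring
        linarith
      refine e6.trans ?_
      apply mul_le_mul_of_nonneg_left e5
      apply inv_nonneg.2
      linarith
  -- tail
  have hxn : 0 < x ^ n := pow_pos (by linarith) n
  have htail : ∀ N, ∑ m ∈ range N, W (tr a y) m ≤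
      ∑ m ∈ range n, W (tr a y) m + (x ^ n)⁻¹ * (F a y * Real.exp 8) := by
    intro N
    rcases le_or_gt N n with hN | hN
    · have e1 : ∑ m ∈ range N, W (tr a y) m ≤ ∑ m ∈ range n, W (tr a y) m :=
        Finset.sum_le_sum_of_subset_of_nonneg (Finset.range_mono hN) fun i _ _ =>
          W_nonneg (tr_nonneg h0 _) i
      have e2 : 0 ≤ (x ^ n)⁻¹ * (F a y * Real.exp 8) := by
        have := F_pos h1 y
        positivity
      linarith
    · rw [← Finset.sum_range_add_sum_Ico _ hN.le]
      apply add_le_add le_rfl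
      have e1 : ∑ m ∈ Ico n N, W (tr a y) m ≤ (x ^ n)⁻¹ * ∑ m ∈ Ico n N, W (tr a y) m * x ^ m := by
        rw [Finset.mul_sum]
        apply Finset.sum_le_sum
        intro m hm
        rw [Finset.mem_Ico] at hm
        have e2 : x ^ n ≤ x ^ m := pow_le_pow_right₀ hx1 hm.1
        have e3 := W_nonneg (tr_nonneg h0 y) m
        rw [inv_mul_eq_div, le_div_iff₀ hxn]
        exact mul_le_mul_of_nonneg_left e2 e3
      have e2 : ∑ m ∈ Ico n N, W (tr a y) m * x ^ m ≤ F a y * Real.exp 8 :=
        (sum_le_hasSum _ (fun m _ => mul_nonneg (W_nonneg (tr_nonneg h0 _) m)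
          (pow_nonneg (by linarith) m)) hA).trans hratio
      exact e1.trans (mul_le_mul_of_nonneg_left e2 (inv_nonneg.2 hxn.le))
  have hF : F a y ≤ ∑ m ∈ range n, W (tr a y) m + (x ^ n)⁻¹ * (F a y * Real.exp 8) :=
    le_of_tendsto' hB.tendsto_sum_nat htail
  have hC : ∑ m ∈ range n, W (tr a y) m ≤ C a n :=
    Finset.sum_le_sum fun m _ => W_tr_le h0 y m
  have hinv : (x ^ n)⁻¹ = Real.exp (-(n / y : ℝ)) := by
    rw [hxk, Real.exp_neg]
  rw [hinv] at hF
  nlinarith

/-! ### logarithms -/

lemma tendsto_log_nat : Tendsto (fun n : ℕ => Real.log n) atTop atTop :=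
  Real.tendsto_log_atTop.comp tendsto_natCast_atTop_atTop

/-- if `n / L - K ≤ f n ≤ n` then `log (f n) ~ log n` -/
lemma log_ratio {f : ℕ → ℕ} {L : ℝ} (hL : 1 ≤ L) (hf1 : ∀ᶠ n : ℕ in atTop, (n : ℝ) ≤ L * f n)
    (hf2 : ∀ᶠ n : ℕ in atTop, f n ≤ n) :
    Tendsto (fun n : ℕ => Real.log (f n) / Real.log n) atTop (𝓝 1) := by
  have hlow : Tendsto (fun n : ℕ => 1 - Real.log L / Real.log n) atTop (𝓝 1) := by
    have := (tendsto_log_nat.inv_tendsto_atTop).const_mul (Real.log L)
    rw [mul_zero] at this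
    have := this.const_sub 1
    rw [sub_zero] at this
    simpa [div_eq_mul_inv] using this
  refine tendsto_of_tendsto_of_tendsto_of_le_of_le' hlow tendsto_const_nhds ?_ ?_
  · filter_upwards [hf1, eventually_gt_atTop 1] with n hn1 hn2
    have hn : (1 : ℝ) < n := by exact_mod_cast hn2
    have hlog : 0 < Real.log n := Real.log_pos hn
    have hfpos : (0 : ℝ) < f n := by
      by_contra hc
      push Not at hc
      have : (f n : ℝ) = 0 := le_antisymm hc (Nat.cast_nonneg _)
      rw [this] at hn1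
      linarith
    have h2 : Real.log n ≤ Real.log L + Real.log (f n) := by
      rw [← Real.log_mul (by linarith) hfpos.ne']
      exact Real.log_le_log (by linarith) hn1
    rw [sub_le_iff_le_add, ← add_div, le_div_iff₀ hlog, one_mul]
    linarith
  · filter_upwards [hf1, hf2, eventually_gt_atTop 1] with n hn1 hn3 hn2
    have hn : (1 : ℝ) < n := by exact_mod_cast hn2
    have hlog : 0 < Real.log n := Real.log_pos hn
    have hfpos : (0 : ℝ) < f n := by
      by_contra hc
      push Not at hc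
      have : (f n : ℝ) = 0 := le_antisymm hc (Nat.cast_nonneg _)
      rw [this] at hn1
      linarith
    rw [div_le_one hlog]
    exact Real.log_le_log hfpos (by exact_mod_cast hn3)

variable {G : ℝ} (hG : 0 < G) (h3 : Tendsto (fun y : ℕ => F a y / Real.log y) atTop (𝓝 G))

include h0 h1 hG h3 in
/-- The asymptotics of the cumulative sums. -/
theorem C_tendsto : Tendsto (fun n : ℕ => C a n / Real.log n) atTop (𝓝 G) := by
  -- upper bound
  have hup : ∀ᶠ n : ℕ in atTop, C a n / Real.log n ≤ F a n / Real.log n := by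
    filter_upwards [eventually_gt_atTop 1] with n hn
    have hn' : (1 : ℝ) < n := by exact_mod_cast hn
    have hlog : 0 < Real.log n := Real.log_pos hn'
    apply div_le_div_of_nonneg_right _ hlog.le
    exact (C_mono h0 (Nat.le_succ n)).trans (C_le h0 h1 n)
  rw [tendsto_order]
  constructor
  · intro b hb
    -- choose L with b < G (1 - e^{8 - L})
    have hlim : Tendsto (fun L : ℕ => G * (1 - Real.exp 8 * Real.exp (-(L : ℝ)))) atTop (𝓝 G) := by
      have e1 : Tendsto (fun L : ℕ => Real.exp (-(L : ℝ))) atTop (𝓝 0) :=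
        Real.tendsto_exp_neg_atTop_nhds_zero.comp tendsto_natCast_atTop_atTop
      have e2 := ((e1.const_mul (Real.exp 8)).const_sub 1).const_mul G
      simpa using e2
    obtain ⟨L, hL1, hL2⟩ := ((hlim.eventually (lt_mem_nhds hb)).and (eventually_ge_atTop 1)).exists
    -- the comparison
    have hL2' : (1 : ℝ) ≤ L := by exact_mod_cast hL2
    have hdiv : Tendsto (fun n : ℕ => n / L) atTop atTop := Nat.tendsto_div_const_atTop (by omega)
    have hr : Tendsto (fun n : ℕ => Real.log ((n / L : ℕ) : ℝ) / Real.log n) atTop (𝓝 1) := by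
      refine log_ratio (L := 2 * L) (by linarith) ?_ (Eventually.of_forall fun n => Nat.div_le_self _ _)
      filter_upwards [eventually_ge_atTop L] with n hn
      have e1 : 1 ≤ n / L := Nat.div_pos hn (by omega)
      have e2 : n < L * (n / L + 1) := by
        have := Nat.lt_mul_div_succ n (show 0 < L by omega)
        simpa using this
      have e3 : n ≤ 2 * L * (n / L) := by
        have : L * (n / L + 1) ≤ 2 * L * (n / L) := by
          calc L * (n / L + 1) ≤ L * (n / L + n / L) := by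
                apply Nat.mul_le_mul_left; omega
            _ = 2 * L * (n / L) := by ring
        omega
      exact_mod_cast e3
    have hf := (h3.comp hdiv).mul hr
    rw [mul_one] at hf
    have hf2 := hf.mul_const (1 - Real.exp 8 * Real.exp (-(L : ℝ)))
    filter_upwards [hf2.eventually (lt_mem_nhds hL1), hdiv.eventually (eventually_ge_atTop 8),
      eventually_gt_atTop 1] with n hn1 hn2 hn3
    have hn' : (1 : ℝ) < n := by exact_mod_cast hn3
    have hlog : 0 < Real.log n := Real.log_pos hn'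
    refine hn1.trans_le ?_
    have hy8 : (8 : ℝ) ≤ ((n / L : ℕ) : ℝ) := by exact_mod_cast hn2
    have hlogy : 0 < Real.log ((n / L : ℕ) : ℝ) := Real.log_pos (by linarith)
    have e1 : F a (n / L) / Real.log ((n / L : ℕ) : ℝ) * (Real.log ((n / L : ℕ) : ℝ) / Real.log n) =
        F a (n / L) / Real.log n := by
      field_simp
    dsimp only [Function.comp_apply]
    rw [e1, div_mul_eq_mul_div]
    apply div_le_div_of_nonneg_right _ hlog.le
    refine le_trans ?_ (le_C h0 h1 hn2 n)
    apply mul_le_mul_of_nonneg_left _ (F_pos h1 _).le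
    apply sub_le_sub_left
    apply mul_le_mul_of_nonneg_left _ (Real.exp_pos _).le
    apply Real.exp_le_exp.2
    apply neg_le_neg
    rw [le_div_iff₀ (by linarith)]
    have : L * (n / L) ≤ n := Nat.mul_div_le n L
    exact_mod_cast this
  · intro b hb
    filter_upwards [hup, h3.eventually (gt_mem_nhds hb)] with n hn1 hn2
    exact hn1.trans_lt hn2

/-! ### the coefficients -/

lemma card_divisors_le (j : ℕ) (s : ℕ) (hs : j ≤ s * s) : (j.divisors).card ≤ 2 * s := by
  classical
  have hsub : j.divisors ⊆ (Icc 1 s) ∪ (Icc 1 s).image (fun m => j / m) := by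
    intro k hk
    rw [Nat.mem_divisors] at hk
    obtain ⟨⟨m, rfl⟩, hne⟩ := hk
    have hk0 : 0 < k := Nat.pos_of_ne_zero (by rintro rfl; simp at hne)
    have hm0 : 0 < m := Nat.pos_of_ne_zero (by rintro rfl; simp at hne)
    rw [Finset.mem_union, Finset.mem_image]
    by_cases h : k ≤ s
    · left; rw [Finset.mem_Icc]; exact ⟨hk0, h⟩
    · right
      refine ⟨m, ?_, Nat.mul_div_cancel _ hm0⟩
      rw [Finset.mem_Icc]
      refine ⟨hm0, ?_⟩
      by_contra hc
      push Not at hc h
      have := Nat.mul_lt_mul'' h hc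
      omega
  refine (Finset.card_le_card hsub).trans ((Finset.card_union_le _ _).trans ?_)
  have e1 : (Icc 1 s).card = s := by rw [Nat.card_Icc]; omega
  have e2 := Finset.card_image_le (s := Icc 1 s) (f := fun m => j / m)
  rw [e1] at e2
  rw [e1]
  omega

include h0 h1 in
lemma c_bounds (j : ℕ) (hj : 1 ≤ j) :
    (j : ℝ) * a j ≤ c a j ∧ c a j ≤ (j : ℝ) * a j + 4 * (Nat.sqrt j + 1) / j := by
  have hj' : (0 : ℝ) < j := by exact_mod_cast hj
  have hmem : j ∈ j.divisors := Nat.mem_divisors_self j (by omega)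
  have hsplit : c a j = (j : ℝ) * a j + ∑ k ∈ j.divisors.erase j, (k : ℝ) * a k ^ (j / k) := by
    unfold c
    rw [← Finset.add_sum_erase _ _ hmem, Nat.div_self hj, pow_one]
  have hnn : ∀ k ∈ j.divisors.erase j, 0 ≤ (k : ℝ) * a k ^ (j / k) := fun k _ =>
    mul_nonneg (Nat.cast_nonneg _) (pow_nonneg (h0 k) _)
  refine ⟨by rw [hsplit]; linarith [Finset.sum_nonneg hnn], ?_⟩
  rw [hsplit]
  apply add_le_add le_rfl
  have hterm : ∀ k ∈ j.divisors.erase j, (k : ℝ) * a k ^ (j / k) ≤ 2 / j := by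
    intro k hk
    rw [Finset.mem_erase, Nat.mem_divisors] at hk
    obtain ⟨hne, ⟨m, rfl⟩, hne0⟩ := hk
    have hk0 : 0 < k := Nat.pos_of_ne_zero (by rintro rfl; simp at hne0)
    have hm0 : 0 < m := Nat.pos_of_ne_zero (by rintro rfl; simp at hne0)
    have hm2 : 2 ≤ m := by
      by_contra hc
      have : m = 1 := by omega
      subst this
      exact hne (mul_one k).symm
    rw [Nat.mul_div_cancel_left m hk0]
    have hk0' : (0 : ℝ) < k := by exact_mod_cast hk0
    have hk1' : (1 : ℝ) ≤ k := by exact_mod_cast hk0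
    have hm0' : (0 : ℝ) < m := by exact_mod_cast hm0
    have e1 : a k ^ m ≤ (1 / ((k : ℝ) + 1)) ^ m := pow_le_pow_left₀ (h0 k) (h1 k hk0) m
    have e2 : (k : ℝ) * (1 / ((k : ℝ) + 1)) ^ m ≤ 2 / ((k * m : ℕ) : ℝ) := by
      obtain ⟨d, rfl⟩ : ∃ d, m = d + 2 := ⟨m - 2, by omega⟩
      rw [one_div, inv_pow, ← div_eq_mul_inv]
      push_cast
      rw [div_le_div_iff₀ (by positivity) (by positivity)]
      have e3 : (d : ℝ) + 2 ≤ 2 * 2 ^ d := by
        have : d + 1 ≤ 2 ^ d := Nat.lt_two_pow_self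
        have h' : ((d : ℝ) + 1) ≤ 2 ^ d := by exact_mod_cast this
        have h'' : (0 : ℝ) ≤ d := Nat.cast_nonneg d
        linarith
      have e4 : (2 : ℝ) ^ d ≤ ((k : ℝ) + 1) ^ d := pow_le_pow_left₀ (by norm_num) (by linarith) d
      have e5 : (k : ℝ) ^ 2 ≤ ((k : ℝ) + 1) ^ 2 := pow_le_pow_left₀ (by linarith) (by linarith) 2
      calc (k : ℝ) * (k * (d + 2)) = k ^ 2 * (d + 2) := by ring
        _ ≤ k ^ 2 * (2 * 2 ^ d) := mul_le_mul_of_nonneg_left e3 (by positivity)
        _ = 2 * (k ^ 2 * 2 ^ d) := by ring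
        _ ≤ 2 * ((k + 1) ^ 2 * (k + 1) ^ d) := by
            apply mul_le_mul_of_nonneg_left _ (by norm_num)
            exact mul_le_mul e5 e4 (by positivity) (by positivity)
        _ = 2 * (k + 1) ^ (d + 2) := by ring
    exact (mul_le_mul_of_nonneg_left e1 hk0'.le).trans e2
  calc ∑ k ∈ j.divisors.erase j, (k : ℝ) * a k ^ (j / k)
      ≤ ∑ k ∈ j.divisors.erase j, (2 : ℝ) / j := Finset.sum_le_sum hterm
    _ = (j.divisors.erase j).card * (2 / j) := by rw [Finset.sum_const, nsmul_eq_mul]
    _ ≤ (2 * (Nat.sqrt j + 1 : ℕ) : ℝ) * (2 / j) := by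
        apply mul_le_mul_of_nonneg_right _ (by positivity)
        have e1 : (j.divisors.erase j).card ≤ 2 * (Nat.sqrt j + 1) :=
          (Finset.card_le_card (Finset.erase_subset _ _)).trans
            (card_divisors_le j _ (Nat.lt_succ_sqrt j).le)
        exact_mod_cast e1
    _ = 4 * (Nat.sqrt j + 1) / j := by push_cast; ring

variable (h2 : Tendsto (fun j : ℕ => (j : ℝ) * a j * Real.log j) atTop (𝓝 1))

include h0 h1 h2 in
lemma c_log_tendsto : Tendsto (fun j : ℕ => c a j * Real.log j) atTop (𝓝 1) := by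
  have herr : Tendsto (fun j : ℕ => 8 * (Real.log j / (j : ℝ) ^ (1 / 2 : ℝ))) atTop (𝓝 0) := by
    have e1 := (isLittleO_log_rpow_atTop (show (0 : ℝ) < 1 / 2 by norm_num)).tendsto_div_nhds_zero
    have e2 := (e1.comp tendsto_natCast_atTop_atTop).const_mul 8
    rw [mul_zero] at e2
    exact e2
  have hup := h2.add herr
  rw [add_zero] at hup
  refine tendsto_of_tendsto_of_tendsto_of_le_of_le' h2 hup ?_ ?_
  · filter_upwards [eventually_gt_atTop 1] with j hj
    have hj' : (1 : ℝ) < j := by exact_mod_cast hj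
    have hlog : 0 < Real.log j := Real.log_pos hj'
    exact mul_le_mul_of_nonneg_right (c_bounds h0 h1 j hj.le).1 hlog.le
  · filter_upwards [eventually_gt_atTop 1] with j hj
    have hj' : (1 : ℝ) < j := by exact_mod_cast hj
    have hlog : 0 < Real.log j := Real.log_pos hj'
    have e1 := mul_le_mul_of_nonneg_right (c_bounds h0 h1 j hj.le).2 hlog.le
    refine e1.trans ?_
    rw [add_mul]
    apply add_le_add le_rfl
    have e2 : ((Nat.sqrt j : ℕ) : ℝ) ≤ Real.sqrt j := Real.nat_sqrt_le_real_sqrt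
    have e3 : 1 ≤ Real.sqrt j := by
      rw [Real.one_le_sqrt]; linarith
    have e4 : (j : ℝ) = Real.sqrt j * Real.sqrt j := (Real.mul_self_sqrt (by linarith)).symm
    have e5 : (j : ℝ) ^ (1 / 2 : ℝ) = Real.sqrt j := (Real.sqrt_eq_rpow _).symm
    rw [e5]
    have e6 : 4 * ((Nat.sqrt j : ℝ) + 1) / j ≤ 8 / Real.sqrt j := by
      rw [div_le_div_iff₀ (by linarith) (by linarith)]
      nlinarith
    calc 4 * ((Nat.sqrt j : ℝ) + 1) / j * Real.log j ≤ 8 / Real.sqrt j * Real.log j :=
          mul_le_mul_of_nonneg_right e6 hlog.le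
      _ = 8 * (Real.log j / Real.sqrt j) := by ring

include h0 in
lemma c_nonneg (j : ℕ) : 0 ≤ c a j :=
  Finset.sum_nonneg fun k _ => mul_nonneg (Nat.cast_nonneg _) (pow_nonneg (h0 k) _)

include h0 h1 h2 in
lemma c_tendsto : Tendsto (c a) atTop (𝓝 0) := by
  have e1 := (c_log_tendsto h0 h1 h2).mul tendsto_log_nat.inv_tendsto_atTop
  rw [mul_zero] at e1
  refine e1.congr' ?_
  filter_upwards [eventually_gt_atTop 1] with j hj
  have hj' : (1 : ℝ) < j := by exact_mod_cast hj
  have hlog : 0 < Real.log j := Real.log_pos hj'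
  simp only [Pi.inv_apply]
  field_simp

end

end Pool.Agent.Q164.SN
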