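import Mathlib
import Pool.Agent.Q164.SN.Asym

/-!
# Weighted partitions: the main theorem (abstract form)
-/

set_option autoImplicit false

namespace Pool.Agent.Q164.SN

open Finset Filter Topology

section
variable {a : ℕ → ℝ} (h0 : ∀ k, 0 ≤ a k) (h1 : ∀ k, 1 ≤ k → a k ≤ 1 / ((k : ℝ) + 1))

/-- the upper part of the recurrence -/
noncomputable def T2 (a : ℕ → ℝ) (n : ℕ) : ℝ := ∑ i ∈ range (n - n / 2), c a (n - i) * W a i

/-- the lower part of the recurrence -/
noncomputable def T1 (a : ℕ → ℝ) (n : ℕ) : ℝ := ∑ j ∈ Icc 1 (n / 2), c a j * W a (n - j)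

lemma split (a : ℕ → ℝ) (n : ℕ) : (n : ℝ) * W a n = T1 a n + T2 a n := by
  rw [recurrence]
  have e : Icc 1 n = Icc 1 (n / 2) ∪ Ioc (n / 2) n := by
    ext j
    simp only [mem_Icc, mem_union, mem_Ioc]
    omega
  rw [e, Finset.sum_union]
  · unfold T1 T2
    congr 1
    refine Finset.sum_bij' (i := fun j _ => n - j) (j := fun i _ => n - i) ?_ ?_ ?_ ?_ ?_
    · intro j hj
      rw [Finset.mem_Ioc] at hj
      rw [Finset.mem_range]
      omega
    · intro i hi
      rw [Finset.mem_range] at hi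
      rw [Finset.mem_Ioc]
      omega
    · intro j hj
      rw [Finset.mem_Ioc] at hj
      omega
    · intro i hi
      rw [Finset.mem_range] at hi
      omega
    · intro j hj
      rw [Finset.mem_Ioc] at hj
      rw [Nat.sub_sub_self hj.2]
  · rw [Finset.disjoint_left]
    intro j hj
    rw [Finset.mem_Icc] at hj
    rw [Finset.mem_Ioc]
    omega

variable {G : ℝ} (h3 : Tendsto (fun y : ℕ => F a y / Real.log y) atTop (𝓝 G))
variable (h2 : Tendsto (fun j : ℕ => (j : ℝ) * a j * Real.log j) atTop (𝓝 1))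

include h0 h1 h2 h3 in
lemma T2_tendsto (hG : 0 < G) : Tendsto (T2 a) atTop (𝓝 G) := by
  have hm : Tendsto (fun n : ℕ => n - n / 2) atTop atTop := by
    apply tendsto_atTop_mono (f := fun n : ℕ => n / 2)
    · intro n
      omega
    · exact Nat.tendsto_div_const_atTop (by norm_num)
  have hC := (C_tendsto h0 h1 hG h3).comp hm
  have hr : Tendsto (fun n : ℕ => Real.log ((n - n / 2 : ℕ) : ℝ) / Real.log n) atTop (𝓝 1) := by
    refine log_ratio (L := 2) (by norm_num) ?_ (Eventually.of_forall fun n => Nat.sub_le _ _)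
    refine Eventually.of_forall fun n => ?_
    have : n ≤ 2 * (n - n / 2) := by omega
    exact_mod_cast this
  have hcl := c_log_tendsto h0 h1 h2
  rw [tendsto_order]
  constructor
  · intro b hb
    -- ε with b < G (1 - ε)
    obtain ⟨ε, hε0, hε1, hε2⟩ : ∃ ε : ℝ, 0 < ε ∧ ε < 1 ∧ b < G * (1 - ε) := by
      refine ⟨min (1 / 2) ((G - b) / (2 * G)), ?_, ?_, ?_⟩
      · apply lt_min (by norm_num)
        apply div_pos <;> linarith
      · exact (min_le_left _ _).trans_lt (by norm_num)
      · have e1 : min (1 / 2) ((G - b) / (2 * G)) ≤ (G - b) / (2 * G) := min_le_right _ _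
        have e2 : G * ((G - b) / (2 * G)) = (G - b) / 2 := by field_simp
        have e3 : G * min (1 / 2) ((G - b) / (2 * G)) ≤ (G - b) / 2 := by
          rw [← e2]; exact mul_le_mul_of_nonneg_left e1 hG.le
        rw [mul_sub, mul_one]
        linarith
    have hlim := (hC.mul hr).mul_const (1 - ε)
    rw [mul_one] at hlim
    obtain ⟨J, hJ⟩ := eventually_atTop.1 (hcl.eventually (lt_mem_nhds (show 1 - ε < 1 by linarith)))
    filter_upwards [hlim.eventually (lt_mem_nhds hε2), hm.eventually (eventually_ge_atTop (J + 2)),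
      eventually_gt_atTop 1] with n hn1 hn2 hn3
    have hn' : (1 : ℝ) < n := by exact_mod_cast hn3
    have hlog : 0 < Real.log n := Real.log_pos hn'
    refine hn1.trans_le ?_
    have hy8 : (2 : ℝ) ≤ ((n - n / 2 : ℕ) : ℝ) := by exact_mod_cast (by omega : 2 ≤ n - n / 2)
    have hlogy : 0 < Real.log ((n - n / 2 : ℕ) : ℝ) := Real.log_pos (by linarith)
    have e1 : C a (n - n / 2) / Real.log ((n - n / 2 : ℕ) : ℝ) *
        (Real.log ((n - n / 2 : ℕ) : ℝ) / Real.log n) = C a (n - n / 2) / Real.log n := by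
      field_simp
    dsimp only [Function.comp_apply]
    rw [e1, div_mul_eq_mul_div, div_le_iff₀ hlog]
    unfold C T2
    rw [Finset.sum_mul, Finset.sum_mul]
    apply Finset.sum_le_sum
    intro i hi
    rw [Finset.mem_range] at hi
    have e2 := hJ (n - i) (by omega)
    have e3 : Real.log ((n - i : ℕ) : ℝ) ≤ Real.log n := by
      apply Real.log_le_log
      · exact_mod_cast (by omega : 0 < n - i)
      · exact_mod_cast Nat.sub_le n i
    have e4 : c a (n - i) * Real.log ((n - i : ℕ) : ℝ) ≤ c a (n - i) * Real.log n :=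
      mul_le_mul_of_nonneg_left e3 (c_nonneg h0 _)
    have e5 := W_nonneg h0 i
    calc W a i * (1 - ε) ≤ W a i * (c a (n - i) * Real.log n) :=
          mul_le_mul_of_nonneg_left (e2.le.trans e4) e5
      _ = c a (n - i) * W a i * Real.log n := by ring
  · intro b hb
    obtain ⟨ε, hε0, hε2⟩ : ∃ ε : ℝ, 0 < ε ∧ G * (1 + ε) < b := by
      refine ⟨(b - G) / (2 * G), ?_, ?_⟩
      · apply div_pos <;> linarith
      · have e2 : G * ((b - G) / (2 * G)) = (b - G) / 2 := by field_simp
        rw [mul_add, mul_one, e2]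
        linarith
    have hlim := hC.mul_const (1 + ε)
    obtain ⟨J, hJ⟩ := eventually_atTop.1 (hcl.eventually (gt_mem_nhds (show 1 < 1 + ε by linarith)))
    filter_upwards [hlim.eventually (gt_mem_nhds hε2), hm.eventually (eventually_ge_atTop (J + 2)),
      eventually_gt_atTop 1] with n hn1 hn2 hn3
    refine lt_of_le_of_lt ?_ hn1
    have hy8 : (2 : ℝ) ≤ ((n - n / 2 : ℕ) : ℝ) := by exact_mod_cast (by omega : 2 ≤ n - n / 2)
    have hlogy : 0 < Real.log ((n - n / 2 : ℕ) : ℝ) := Real.log_pos (by linarith)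
    dsimp only [Function.comp_apply]
    rw [div_mul_eq_mul_div, le_div_iff₀ hlogy]
    unfold C T2
    rw [Finset.sum_mul, Finset.sum_mul]
    apply Finset.sum_le_sum
    intro i hi
    rw [Finset.mem_range] at hi
    have e2 := hJ (n - i) (by omega)
    have e3 : Real.log ((n - n / 2 : ℕ) : ℝ) ≤ Real.log ((n - i : ℕ) : ℝ) := by
      apply Real.log_le_log
      · linarith
      · exact_mod_cast (by omega : n - n / 2 ≤ n - i)
    have e4 : c a (n - i) * Real.log ((n - n / 2 : ℕ) : ℝ) ≤
        c a (n - i) * Real.log ((n - i : ℕ) : ℝ) :=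
      mul_le_mul_of_nonneg_left e3 (c_nonneg h0 _)
    have e5 := W_nonneg h0 i
    calc c a (n - i) * W a i * Real.log ((n - n / 2 : ℕ) : ℝ)
        = W a i * (c a (n - i) * Real.log ((n - n / 2 : ℕ) : ℝ)) := by ring
      _ ≤ W a i * (1 + ε) := mul_le_mul_of_nonneg_left (e4.trans e2.le) e5

/-- the averages of the coefficients -/
noncomputable def A (a : ℕ → ℝ) (n : ℕ) : ℝ := 2 * ((n : ℝ)⁻¹ * ∑ i ∈ range n, c a i)

include h0 h1 h2 in
lemma A_tendsto : Tendsto (A a) atTop (𝓝 0) := by
  have := ((c_tendsto h0 h1 h2).cesaro).const_mul 2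
  rw [mul_zero] at this
  exact this

include h0 in
lemma A_nonneg (n : ℕ) : 0 ≤ A a n := by
  unfold A
  have : 0 ≤ ∑ i ∈ range n, c a i := Finset.sum_nonneg fun i _ => c_nonneg h0 i
  positivity

include h0 in
lemma T1_nonneg (n : ℕ) : 0 ≤ T1 a n :=
  Finset.sum_nonneg fun _ _ => mul_nonneg (c_nonneg h0 _) (W_nonneg h0 _)

include h0 in
lemma T1_le {n : ℕ} (hn : 1 ≤ n) {K : ℝ} (hK0 : 0 ≤ K) (hK : ∀ m < n, (m : ℝ) * W a m ≤ K) :
    T1 a n ≤ K * A a n := by
  have hn' : (0 : ℝ) < n := by exact_mod_cast hn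
  have e1 : T1 a n ≤ ∑ j ∈ Icc 1 (n / 2), c a j * (2 * K / n) := by
    unfold T1
    apply Finset.sum_le_sum
    intro j hj
    rw [Finset.mem_Icc] at hj
    apply mul_le_mul_of_nonneg_left _ (c_nonneg h0 j)
    have e2 := hK (n - j) (by omega)
    have e3 : (n : ℝ) ≤ 2 * ((n - j : ℕ) : ℝ) := by
      exact_mod_cast (by omega : n ≤ 2 * (n - j))
    rw [le_div_iff₀ hn']
    have e4 := W_nonneg h0 (n - j)
    calc W a (n - j) * n ≤ W a (n - j) * (2 * ((n - j : ℕ) : ℝ)) :=
          mul_le_mul_of_nonneg_left e3 e4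
      _ = 2 * (((n - j : ℕ) : ℝ) * W a (n - j)) := by ring
      _ ≤ 2 * K := by linarith
  refine e1.trans ?_
  rw [← Finset.sum_mul]
  have e2 : ∑ j ∈ Icc 1 (n / 2), c a j ≤ ∑ j ∈ range n, c a j := by
    apply Finset.sum_le_sum_of_subset_of_nonneg
    · intro j hj
      rw [Finset.mem_Icc] at hj
      rw [Finset.mem_range]
      omega
    · intro j _ _
      exact c_nonneg h0 j
  calc (∑ j ∈ Icc 1 (n / 2), c a j) * (2 * K / n) ≤ (∑ j ∈ range n, c a j) * (2 * K / n) :=
        mul_le_mul_of_nonneg_right e2 (by positivity)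
    _ = K * A a n := by unfold A; ring

include h0 h1 h2 h3 in
/-- **The main theorem, abstract form.** -/
theorem main (hG : 0 < G) : Tendsto (fun n : ℕ => (n : ℝ) * W a n) atTop (𝓝 G) := by
  have hT2 := T2_tendsto h0 h1 h3 h2 hG
  have hA := A_tendsto h0 h1 h2
  obtain ⟨M, hM⟩ := hT2.bddAbove_range
  have hM' : ∀ n, T2 a n ≤ M := fun n => hM ⟨n, rfl⟩
  obtain ⟨n0, hn0⟩ := eventually_atTop.1 (hA.eventually (gt_mem_nhds (show (0 : ℝ) < 1 / 2 by norm_num)))
  have hunn : ∀ m : ℕ, 0 ≤ (m : ℝ) * W a m := fun m => mul_nonneg (Nat.cast_nonneg _) (W_nonneg h0 m)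
  set K : ℝ := max (2 * M) (∑ m ∈ range (n0 + 1), (m : ℝ) * W a m) with hKdef
  have hK0 : 0 ≤ K := (Finset.sum_nonneg fun m _ => hunn m).trans (le_max_right _ _)
  have hK : ∀ n : ℕ, (n : ℝ) * W a n ≤ K := by
    intro n
    induction n using Nat.strong_induction_on with
    | _ n ih =>
      rcases le_or_gt n n0 with hn | hn
      · refine le_trans ?_ (le_max_right _ _)
        exact Finset.single_le_sum (f := fun m : ℕ => (m : ℝ) * W a m) (fun m _ => hunn m)
          (Finset.mem_range.2 (by omega))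
      · rw [split]
        have e1 := T1_le h0 (show 1 ≤ n by omega) hK0 ih
        have e2 := hM' n
        have e3 := hn0 n hn.le
        have e4 : K * A a n ≤ K * (1 / 2) := mul_le_mul_of_nonneg_left e3.le hK0
        have e5 : 2 * M ≤ K := le_max_left _ _
        linarith
  have hT1 : Tendsto (T1 a) atTop (𝓝 0) := by
    have e1 := hA.const_mul K
    rw [mul_zero] at e1
    refine tendsto_of_tendsto_of_tendsto_of_le_of_le' tendsto_const_nhds e1
      (Eventually.of_forall fun n => T1_nonneg h0 n) ?_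
    filter_upwards [eventually_ge_atTop 1] with n hn
    exact T1_le h0 hn hK0 fun m _ => hK m
  have := hT1.add hT2
  rw [zero_add] at this
  refine this.congr fun n => ?_
  rw [split]

end

end Pool.Agent.Q164.SN
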