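import Mathlib
import Pool.Agent.Q164.SN.Main
import Pool.Agent.H305R2.MertensE
import Pool.Agent.Helper923.PNT

/-!
# The reciprocals of the primes
-/

set_option autoImplicit false

namespace Pool.Agent.Q164.SN

open Finset Filter Topology

/-- the `k`-th prime, `pk 1 = 2` -/
noncomputable def pk (k : ℕ) : ℕ := Nat.nth Nat.Prime (k - 1)

/-- the weights -/
noncomputable def ap (k : ℕ) : ℝ := 1 / (pk k : ℝ)

lemma pk_prime (k : ℕ) : (pk k).Prime := Nat.prime_nth_prime _

lemma pk_ge (k : ℕ) (hk : 1 ≤ k) : k + 1 ≤ pk k := by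
  have := Nat.add_two_le_nth_prime (k - 1)
  unfold pk
  omega

lemma ap_nonneg (k : ℕ) : 0 ≤ ap k := by unfold ap; positivity

lemma ap_le (k : ℕ) (hk : 1 ≤ k) : ap k ≤ 1 / ((k : ℝ) + 1) := by
  unfold ap
  have h : ((k : ℝ) + 1) ≤ pk k := by exact_mod_cast pk_ge k hk
  apply one_div_le_one_div_of_le _ h
  positivity

lemma pi_pk (k : ℕ) (hk : 1 ≤ k) : Nat.primeCounting (pk k) = k := by
  unfold Nat.primeCounting Nat.primeCounting' pk
  rw [Nat.count_nth_succ_of_infinite Nat.infinite_setOf_prime]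
  omega

lemma pk_tendsto : Tendsto (fun k : ℕ => (pk k : ℝ)) atTop atTop := by
  apply tendsto_natCast_atTop_atTop.comp
  apply tendsto_atTop_mono' atTop (f₁ := fun k => k) _ tendsto_id
  filter_upwards [eventually_ge_atTop 1] with k hk
  have := pk_ge k hk
  omega

/-- `k log p_k / p_k → 1` -/
lemma pnt1 : Tendsto (fun k : ℕ => (k : ℝ) * Real.log (pk k) / pk k) atTop (𝓝 1) := by
  have h := Pool.Agent.Helper923.PNT.pi_tendsto.comp pk_tendsto
  refine h.congr' ?_
  filter_upwards [eventually_ge_atTop 1] with k hk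
  dsimp only [Function.comp_apply]
  rw [Nat.floor_natCast, pi_pk k hk]

/-- `log k / log p_k → 1` -/
lemma pnt2 : Tendsto (fun k : ℕ => Real.log k / Real.log (pk k)) atTop (𝓝 1) := by
  have hlp : Tendsto (fun k : ℕ => Real.log (pk k)) atTop atTop :=
    Real.tendsto_log_atTop.comp pk_tendsto
  -- log (k log p_k / p_k) → 0
  have h1 : Tendsto (fun k : ℕ => Real.log ((k : ℝ) * Real.log (pk k) / pk k)) atTop (𝓝 0) := by
    have := (Real.continuousAt_log (show (1 : ℝ) ≠ 0 by norm_num)).tendsto.comp pnt1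
    rw [Real.log_one] at this
    exact this
  have h2 : Tendsto (fun k : ℕ => Real.log ((k : ℝ) * Real.log (pk k) / pk k) /
      Real.log (pk k)) atTop (𝓝 0) := h1.div_atTop hlp
  have h3 : Tendsto (fun k : ℕ => Real.log (Real.log (pk k)) / Real.log (pk k)) atTop (𝓝 0) := by
    have := (Real.isLittleO_log_id_atTop).tendsto_div_nhds_zero
    exact this.comp hlp
  have h4 := (h2.sub h3).add_const 1
  rw [sub_zero, zero_add] at h4
  refine h4.congr' ?_
  filter_upwards [eventually_ge_atTop 2] with k hk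
  have hk' : (2 : ℝ) ≤ k := by exact_mod_cast hk
  have hp : (3 : ℝ) ≤ pk k := by
    have := pk_ge k (by omega)
    exact_mod_cast (by omega : 3 ≤ pk k)
  have hl : 0 < Real.log (pk k) := Real.log_pos (by linarith)
  rw [Real.log_div (by positivity) (by positivity), Real.log_mul (by positivity) hl.ne']
  field_simp
  ring

lemma ap_log_tendsto : Tendsto (fun k : ℕ => (k : ℝ) * ap k * Real.log k) atTop (𝓝 1) := by
  have h := pnt1.mul pnt2
  rw [mul_one] at h
  refine h.congr' ?_
  filter_upwards [eventually_ge_atTop 2] with k hk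
  have hp : (3 : ℝ) ≤ pk k := by
    have := pk_ge k (by omega)
    exact_mod_cast (by omega : 3 ≤ pk k)
  have hl : 0 < Real.log (pk k) := Real.log_pos (by linarith)
  unfold ap
  field_simp

lemma F_eq (y : ℕ) (hy : 1 ≤ y) : F ap y =
    ∏ p ∈ (Finset.Icc 1 (pk y)).filter Nat.Prime, (1 - (p : ℝ)⁻¹)⁻¹ := by
  unfold F
  refine Finset.prod_bij' (i := fun k _ => pk k) (j := fun p _ => Nat.primeCounting p) ?_ ?_ ?_ ?_ ?_
  · intro k hk
    rw [Finset.mem_Icc] at hk
    rw [Finset.mem_filter, Finset.mem_Icc]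
    refine ⟨⟨(pk_prime k).one_le, ?_⟩, pk_prime k⟩
    exact (Nat.nth_strictMono Nat.infinite_setOf_prime).monotone (Nat.sub_le_sub_right hk.2 1)
  · intro p hp
    rw [Finset.mem_filter, Finset.mem_Icc] at hp
    rw [Finset.mem_Icc]
    constructor
    · have h2 : Nat.primeCounting 2 ≤ Nat.primeCounting p := Nat.monotone_primeCounting hp.2.two_le
      have h3 : Nat.primeCounting 2 = 1 := by decide
      omega
    · rw [← pi_pk y hy]
      exact Nat.monotone_primeCounting hp.1.2
  · intro k hk
    rw [Finset.mem_Icc] at hk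
    exact pi_pk k hk.1
  · intro p hp
    rw [Finset.mem_filter, Finset.mem_Icc] at hp
    have h1 : Nat.primeCounting p = Nat.count Nat.Prime p + 1 := by
      unfold Nat.primeCounting Nat.primeCounting'
      rw [Nat.count_succ, if_pos hp.2]
    unfold pk
    rw [h1, Nat.add_sub_cancel]
    exact Nat.nth_count hp.2
  · intro k hk
    unfold ap
    rw [one_div]

lemma F_tendsto : Tendsto (fun y : ℕ => F ap y / Real.log y) atTop
    (𝓝 (Real.exp Real.eulerMascheroniConstant)) := by
  have hpk : Tendsto pk atTop atTop := tendsto_natCast_atTop_iff.1 pk_tendsto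
  have h1 := (Pool.Agent.H305R2.mertens_three).comp hpk
  have h2 := h1.div pnt2 one_ne_zero
  rw [div_one] at h2
  refine h2.congr' ?_
  filter_upwards [eventually_ge_atTop 2] with y hy
  have hy' : (2 : ℝ) ≤ y := by exact_mod_cast hy
  have hp : (3 : ℝ) ≤ pk y := by
    have := pk_ge y (by omega)
    exact_mod_cast (by omega : 3 ≤ pk y)
  have hl : 0 < Real.log (pk y) := Real.log_pos (by linarith)
  have hl' : 0 < Real.log y := Real.log_pos (by linarith)
  dsimp only [Function.comp_apply, Pi.div_apply]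
  rw [F_eq y (by omega)]
  field_simp

theorem W_tendsto : Tendsto (fun n : ℕ => (n : ℝ) * W ap n) atTop
    (𝓝 (Real.exp Real.eulerMascheroniConstant)) :=
  main ap_nonneg ap_le F_tendsto ap_log_tendsto (Real.exp_pos _)

end Pool.Agent.Q164.SN
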